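import Pool.Agent.Helper22.AE.D2

/-!
# MM: the only pairs of tuples in separated arcs with all moments tiny are the diagonal ones
-/

open Real Set Filter Topology

set_option autoImplicit false

namespace Pool.Agent.Helper75.MM

open Pool.Agent.Helper22.AE

theorem no_coll {J n : ℕ} (hJ : 2 ≤ J) {τ : ℝ} (hτ : 0 < τ) (hτ1 : τ ≤ 1) (A : Fin J → Finset (ℤ × ℤ))
    (hA : ∀ i, ∀ k ∈ A i, (2 : ℝ) ^ n ≤ nk k ∧ nk k ≤ 2 ^ (n + 1))
    (hs : ∀ i j, i ≠ j → ∀ k ∈ A i, ∀ k' ∈ A j, τ ≤ ‖zk k - zk k'‖) :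
    ∀ k ∈ Fintype.piFinset A, ∀ k' ∈ Fintype.piFinset A, k ≠ k' →
      ∃ l < 2 * J, τ ^ (2 * J) / (200 * J * 4 ^ J) < ‖Mom k k' l‖ := by
  classical
  intro k hk k' hk' hne
  by_contra hcon
  push Not at hcon
  set η : ℝ := τ ^ (2 * J) / (200 * J * 4 ^ J) with hη
  have hJ0 : (0 : ℝ) < J := by
    have : 0 < J := by omega
    exact_mod_cast this
  have h4 : (0 : ℝ) < 4 ^ J := by positivity
  have hη0 : 0 < η := by positivity
  have hcan : J * 4 ^ J * η = τ ^ (2 * J) / 200 := by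
    rw [hη]
    field_simp
  have hp1 : τ ^ (2 * J) = τ * τ ^ (2 * J - 1) := by
    rw [← pow_succ']
    congr 1
    omega
  have hp3 : τ ^ (2 * J) ≤ τ ^ (2 * J - 3) := pow_le_pow_of_le_one hτ.le hτ1 (by omega)
  have hq1 : 0 < τ ^ (2 * J - 1) := by positivity
  have hq3 : 0 < τ ^ (2 * J - 3) := by positivity
  have h2n : (1 : ℝ) ≤ 2 ^ n := one_le_pow₀ (by norm_num)
  have h1 : J * 4 ^ J * (2 * η) ≤ 2 ^ n * τ ^ (2 * J - 1) := by
    have e1 : J * 4 ^ J * (2 * η) = τ * τ ^ (2 * J - 1) / 100 := by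
      rw [← hp1]
      linear_combination 2 * hcan
    have e2 : τ * τ ^ (2 * J - 1) ≤ 1 * τ ^ (2 * J - 1) := mul_le_mul_of_nonneg_right hτ1 hq1.le
    have e3 : 1 * τ ^ (2 * J - 1) ≤ 2 ^ n * τ ^ (2 * J - 1) := mul_le_mul_of_nonneg_right h2n hq1.le
    rw [e1]
    linarith
  have h2 : 50 * J * 4 ^ J * η < τ ^ (2 * J - 3) := by
    have e1 : 50 * J * 4 ^ J * η = τ ^ (2 * J) / 4 := by linear_combination 50 * hcan
    rw [e1]
    linarith
  have hc := collisions (n := n) hJ hη0 hτ hτ1 A hA hs h1 h2 k hk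
  have hρ : 25 * J * 4 ^ J * η / τ ^ (2 * J - 1) = τ / 8 := by
    rw [div_eq_iff hq1.ne']
    have e1 : 25 * J * 4 ^ J * η = τ ^ (2 * J) / 8 := by linear_combination 25 * hcan
    rw [e1, hp1]
    ring
  rw [hρ] at hc
  have hsub : ({k, k'} : Finset (Fin J → ℤ × ℤ)) ⊆
      (Fintype.piFinset A).filter (fun k' => ∀ l < 2 * J, ‖Mom k k' l‖ ≤ η) := by
    intro q hq
    rw [Finset.mem_insert, Finset.mem_singleton] at hq
    rcases hq with rfl | rfl
    · refine Finset.mem_filter.mpr ⟨hk, fun l _ => ?_⟩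
      have h0 : Mom q q l = 0 := by
        unfold Mom
        exact Finset.sum_eq_zero fun i _ => sub_self _
      rw [h0, norm_zero]
      exact hη0.le
    · exact Finset.mem_filter.mpr ⟨hk', hcon⟩
  have hcard := Finset.card_le_card hsub
  rw [Finset.card_pair hne] at hcard
  have hcard' : (2 : ℝ) ≤ (((Fintype.piFinset A).filter (fun k' => ∀ l < 2 * J, ‖Mom k k' l‖ ≤ η)).card : ℝ) := by
    exact_mod_cast hcard
  have h5 := hcard'.trans hc
  nlinarith

end Pool.Agent.Helper75.MM
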