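import Pool.Agent.Helper92.MM.Defs
import Pool.Agent.Helper22.AE.C3
import Pool.Agent.Helper22.AE.E0

/-!
# MM: the oscillatory integral of a nonresonant pair of tuples
-/

open MeasureTheory Real Set Filter Topology

set_option autoImplicit false

namespace Pool.Agent.Helper75.MM

open Pool.Agent.Helper22.AE
open Pool.Agent.Helper92.MM

/-- the phase of a pair of tuples is a constant plus a linear form in the parameters -/
theorem Ph_eq {L J : ℕ} {H₀ : ℝ → ℝ} (h0 : ContDiff ℝ 2 H₀) (k k' : Fin J → ℤ × ℤ) (α : ℝ)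
    (w : (Fin L → ℝ) × (Fin L → ℝ)) :
    Ph (Hw H₀ w) k k' α = Ph H₀ k k' α +
      ∑ l : Fin L, (w.1 l * (cl l α * Mom k k' l).re + w.2 l * (cl l α * Mom k k' l).im) := by
  have hM : ∀ l : ℕ, cl l α * Mom k k' l =
      ∑ i, (((nk (k i) : ℝ) : ℂ) * (cl l α * zk (k i) ^ l) -
        ((nk (k' i) : ℝ) : ℂ) * (cl l α * zk (k' i) ^ l)) := by
    intro l
    unfold Mom
    rw [Finset.mul_sum]
    refine Finset.sum_congr rfl (fun i _ => ?_)
    ring
  have hre : ∀ l : ℕ, (cl l α * Mom k k' l).re =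
      ∑ i, (nk (k i) * (cl l α * zk (k i) ^ l).re - nk (k' i) * (cl l α * zk (k' i) ^ l).re) := by
    intro l
    rw [hM l, Complex.re_sum]
    refine Finset.sum_congr rfl (fun i _ => ?_)
    rw [Complex.sub_re, Complex.re_ofReal_mul, Complex.re_ofReal_mul]
  have him : ∀ l : ℕ, (cl l α * Mom k k' l).im =
      ∑ i, (nk (k i) * (cl l α * zk (k i) ^ l).im - nk (k' i) * (cl l α * zk (k' i) ^ l).im) := by
    intro l
    rw [hM l, Complex.im_sum]
    refine Finset.sum_congr rfl (fun i _ => ?_)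
    rw [Complex.sub_im, Complex.im_ofReal_mul, Complex.im_ofReal_mul]
  have h1 : ∀ l : Fin L, w.1 l * (cl l α * Mom k k' l).re + w.2 l * (cl l α * Mom k k' l).im =
      ∑ i, (nk (k i) * (w.1 l * (cl l α * zk (k i) ^ (l : ℕ)).re +
          w.2 l * (cl l α * zk (k i) ^ (l : ℕ)).im) -
        nk (k' i) * (w.1 l * (cl l α * zk (k' i) ^ (l : ℕ)).re +
          w.2 l * (cl l α * zk (k' i) ^ (l : ℕ)).im)) := by
    intro l
    rw [hre, him, Finset.mul_sum, Finset.mul_sum, ← Finset.sum_add_distrib]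
    refine Finset.sum_congr rfl (fun i _ => ?_)
    ring
  rw [Finset.sum_congr rfl (fun l _ => h1 l), Finset.sum_comm]
  unfold Ph
  rw [← Finset.sum_sub_distrib, ← Finset.sum_sub_distrib, ← Finset.sum_add_distrib]
  refine Finset.sum_congr rfl (fun i _ => ?_)
  rw [gph_Hw h0 w (k i) α, gph_Hw h0 w (k' i) α, Finset.sum_sub_distrib, ← Finset.mul_sum, ← Finset.mul_sum]
  unfold lform
  ring

/-- the Gaussian integral -/
theorem gauss_le {σ : ℝ} (hσ : 0 < σ) (a b R : ℝ) :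
    ∫ x in Icc a b, exp (-π * (σ ^ 2 * (R - x) ^ 2)) ≤ 1 / σ := by
  have h1 : ∫ x : ℝ, exp (-π * (σ ^ 2 * (R - x) ^ 2)) = 1 / σ := by
    have h2 := integral_gaussian (π * σ ^ 2)
    have h3 : ∫ x : ℝ, exp (-(π * σ ^ 2) * (R - x) ^ 2) = ∫ x : ℝ, exp (-(π * σ ^ 2) * x ^ 2) :=
      integral_sub_left_eq_self (fun x => exp (-(π * σ ^ 2) * x ^ 2)) volume R
    have h4 : (fun x : ℝ => exp (-π * (σ ^ 2 * (R - x) ^ 2))) = fun x : ℝ => exp (-(π * σ ^ 2) * (R - x) ^ 2) := by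
      funext x
      congr 1
      ring
    rw [h4, h3, h2]
    have h5 : π / (π * σ ^ 2) = (1 / σ) ^ 2 := by
      field_simp
    rw [h5, sqrt_sq (by positivity)]
  have hi : Integrable (fun x : ℝ => exp (-π * (σ ^ 2 * (R - x) ^ 2))) := by
    by_contra h
    rw [integral_undef h] at h1
    have : 0 < 1 / σ := by positivity
    linarith
  rw [← h1]
  exact setIntegral_le_integral hi (Eventually.of_forall fun x => (exp_pos _).le)

theorem pair_osc {L J : ℕ} (hJL : 2 * J ≤ L) {H₀ : ℝ → ℝ} (h0 : ContDiff ℝ 2 H₀) (k k' : Fin J → ℤ × ℤ) {η α : ℝ} (hη : 0 < η)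
    (hα : 1 / 2 ≤ |cos α|) (hM : ∃ l < 2 * J, η < ‖Mom k k' l‖) (a : ℝ) {ℓ : ℝ} (hℓ : 0 ≤ ℓ) :
    ∫ w : (Fin L → ℝ) × (Fin L → ℝ), ‖∫ R in Icc a (a + ℓ), ee (-(R * Ph (Hw H₀ w) k k' α))‖ ∂(gm L) ≤ sqrt (2 * ℓ / η) := by
  set x : Fin L → ℝ := fun l => (cl l α * Mom k k' l).re with hx
  set y : Fin L → ℝ := fun l => (cl l α * Mom k k' l).im with hy
  set P : ℝ := Ph H₀ k k' α with hP
  set S : ℝ := ∑ l, x l ^ 2 + ∑ l, y l ^ 2 with hS
  have hS0 : 0 ≤ S := by positivity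
  -- the variance
  have hS1 : (η / 2) ^ 2 ≤ S := by
    obtain ⟨l, hl, hM⟩ := hM
    obtain ⟨l', rfl⟩ : ∃ l' : Fin L, (l' : ℕ) = l := ⟨⟨l, lt_of_lt_of_le hl hJL⟩, rfl⟩
    have h1 : S = ∑ l : Fin L, ‖cl l α * Mom k k' l‖ ^ 2 := by
      rw [hS, ← Finset.sum_add_distrib]
      refine Finset.sum_congr rfl (fun l _ => ?_)
      rw [← Complex.normSq_eq_norm_sq, Complex.normSq_apply, hx, hy]
      ring
    have h2 : ‖cl l' α * Mom k k' l'‖ ^ 2 ≤ S := by
      rw [h1]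
      exact Finset.single_le_sum (f := fun l : Fin L => ‖cl l α * Mom k k' l‖ ^ 2)
        (fun i _ => sq_nonneg _) (Finset.mem_univ l')
    have h3 : 1 / 2 * η ≤ ‖cl l' α * Mom k k' l'‖ := by
      rw [norm_mul]
      exact mul_le_mul (hα.trans (cl_norm_ge l' α)) hM.le hη.le (norm_nonneg _)
    have h4 : (1 / 2 * η) ^ 2 ≤ ‖cl l' α * Mom k k' l'‖ ^ 2 := pow_le_pow_left₀ (by positivity) h3 2
    calc (η / 2) ^ 2 = (1 / 2 * η) ^ 2 := by ring
      _ ≤ S := h4.trans h2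
  set I : Set ℝ := Icc a (a + ℓ) with hI
  set μ : Measure ℝ := volume.restrict I with hμ
  have hμf : IsFiniteMeasure μ := ⟨by rw [hμ, Measure.restrict_apply_univ, hI]; exact measure_Icc_lt_top⟩
  -- the phase
  have hph : ∀ w : (Fin L → ℝ) × (Fin L → ℝ), Ph (Hw H₀ w) k k' α = P + ∑ l, (w.1 l * x l + w.2 l * y l) :=
    fun w => Ph_eq h0 k k' α w
  set G : ((Fin L → ℝ) × (Fin L → ℝ)) → ℝ → ℂ := fun w R => ee (-(R * (P + ∑ l, (w.1 l * x l + w.2 l * y l)))) with hG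
  have hGn : ∀ w R, ‖G w R‖ = 1 := fun w R => ee_norm _
  have hGc : Continuous (fun p : ((Fin L → ℝ) × (Fin L → ℝ)) × ℝ => G p.1 p.2) := by
    rw [hG]
    refine ee_cont.comp ?_
    fun_prop
  have hfun : (fun w : (Fin L → ℝ) × (Fin L → ℝ) => ‖∫ R in I, ee (-(R * Ph (Hw H₀ w) k k' α))‖) =
      fun w => ‖∫ R, G w R ∂μ‖ := by
    funext w
    rw [hph w]
  rw [hfun]
  -- the square
  have hsq : ∀ w, ((‖∫ R, G w R ∂μ‖ ^ 2 : ℝ) : ℂ) = ∫ p : ℝ × ℝ, G w p.1 * (starRingEnd ℂ) (G w p.2) ∂(μ.prod μ) := by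
    intro w
    rw [integral_prod_mul (fun R => G w R) (fun R => (starRingEnd ℂ) (G w R)), integral_conj, Complex.mul_conj,
      Complex.normSq_eq_norm_sq]
  have hmul : ∀ (w : (Fin L → ℝ) × (Fin L → ℝ)) (p : ℝ × ℝ), G w p.1 * (starRingEnd ℂ) (G w p.2) =
      ee (-((p.1 - p.2) * P)) * ee (∑ l, (w.1 l * (-(p.1 - p.2) * x l) + w.2 l * (-(p.1 - p.2) * y l))) := by
    intro w p
    rw [hG]
    simp only
    rw [← ee_neg, ← ee_add, ← ee_add]
    congr 1
    have : ∑ l, (w.1 l * (-(p.1 - p.2) * x l) + w.2 l * (-(p.1 - p.2) * y l)) =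
        -(p.1 - p.2) * ∑ l, (w.1 l * x l + w.2 l * y l) := by
      rw [Finset.mul_sum]
      refine Finset.sum_congr rfl fun l _ => ?_
      ring
    rw [this]
    ring
  have hint : Integrable (fun q : ((Fin L → ℝ) × (Fin L → ℝ)) × (ℝ × ℝ) => G q.1 q.2.1 * (starRingEnd ℂ) (G q.1 q.2.2))
      ((gm L).prod (μ.prod μ)) := by
    have hc : Continuous (fun q : ((Fin L → ℝ) × (Fin L → ℝ)) × (ℝ × ℝ) => G q.1 q.2.1 * (starRingEnd ℂ) (G q.1 q.2.2)) := by
      refine (hGc.comp (continuous_fst.prodMk (continuous_fst.comp continuous_snd))).mul ?_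
      exact Complex.continuous_conj.comp (hGc.comp (continuous_fst.prodMk (continuous_snd.comp continuous_snd)))
    refine Integrable.of_bound hc.aestronglyMeasurable 1 (Eventually.of_forall fun q => ?_)
    rw [norm_mul, RCLike.norm_conj, hGn, hGn, one_mul]
  have hsecond : ∫ w, ‖∫ R, G w R ∂μ‖ ^ 2 ∂(gm L) ≤ 2 * ℓ / η := by
    have h1 : ((∫ w, ‖∫ R, G w R ∂μ‖ ^ 2 ∂(gm L) : ℝ) : ℂ) =
        ∫ p : ℝ × ℝ, ∫ w, G w p.1 * (starRingEnd ℂ) (G w p.2) ∂(gm L) ∂(μ.prod μ) := by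
      rw [← integral_complex_ofReal, integral_congr_ae (Eventually.of_forall hsq), integral_integral_swap hint]
    have h2 : ∀ p : ℝ × ℝ, ∫ w, G w p.1 * (starRingEnd ℂ) (G w p.2) ∂(gm L) =
        ee (-((p.1 - p.2) * P)) * ((exp (-π * (S * (p.1 - p.2) ^ 2)) : ℝ) : ℂ) := by
      intro p
      rw [integral_congr_ae (Eventually.of_forall fun w => hmul w p), integral_const_mul,
        gm_char (fun l => -(p.1 - p.2) * x l) (fun l => -(p.1 - p.2) * y l)]
      congr 3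
      have : ∑ l, (-(p.1 - p.2) * x l) ^ 2 + ∑ l, (-(p.1 - p.2) * y l) ^ 2 = S * (p.1 - p.2) ^ 2 := by
        rw [hS, add_mul, Finset.sum_mul, Finset.sum_mul]
        congr 1 <;> exact Finset.sum_congr rfl fun l _ => by ring
      rw [this]
    have h3 : ∫ w, ‖∫ R, G w R ∂μ‖ ^ 2 ∂(gm L) ≤ ∫ p : ℝ × ℝ, exp (-π * (S * (p.1 - p.2) ^ 2)) ∂(μ.prod μ) := by
      calc ∫ w, ‖∫ R, G w R ∂μ‖ ^ 2 ∂(gm L) ≤ ‖((∫ w, ‖∫ R, G w R ∂μ‖ ^ 2 ∂(gm L) : ℝ) : ℂ)‖ := by
            rw [Complex.norm_real]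
            exact le_abs_self _
        _ = ‖∫ p : ℝ × ℝ, ee (-((p.1 - p.2) * P)) * ((exp (-π * (S * (p.1 - p.2) ^ 2)) : ℝ) : ℂ) ∂(μ.prod μ)‖ := by
            rw [h1, integral_congr_ae (Eventually.of_forall h2)]
        _ ≤ ∫ p : ℝ × ℝ, ‖ee (-((p.1 - p.2) * P)) * ((exp (-π * (S * (p.1 - p.2) ^ 2)) : ℝ) : ℂ)‖ ∂(μ.prod μ) :=
            norm_integral_le_integral_norm _
        _ = ∫ p : ℝ × ℝ, exp (-π * (S * (p.1 - p.2) ^ 2)) ∂(μ.prod μ) := by
            refine integral_congr_ae (Eventually.of_forall fun p => ?_)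
            simp only
            rw [norm_mul, ee_norm, one_mul, Complex.norm_real, Real.norm_eq_abs, abs_of_pos (exp_pos _)]
    have h4 : Integrable (fun p : ℝ × ℝ => exp (-π * (S * (p.1 - p.2) ^ 2))) (μ.prod μ) := by
      refine Integrable.of_bound (by fun_prop) 1 (Eventually.of_forall fun p => ?_)
      rw [Real.norm_eq_abs, abs_of_pos (exp_pos _)]
      refine exp_le_one_iff.mpr ?_
      have := mul_nonneg pi_pos.le (mul_nonneg hS0 (sq_nonneg (p.1 - p.2)))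
      linarith
    have h5 : ∫ p : ℝ × ℝ, exp (-π * (S * (p.1 - p.2) ^ 2)) ∂(μ.prod μ) ≤ ∫ _R : ℝ, 2 / η ∂μ := by
      rw [integral_prod _ h4]
      refine integral_mono h4.integral_prod_left (integrable_const _) fun R => ?_
      have h6 := gauss_le (σ := η / 2) (by positivity) a (a + ℓ) R
      have h7 : ∫ x, exp (-π * (S * (R - x) ^ 2)) ∂μ ≤ ∫ x in Icc a (a + ℓ), exp (-π * ((η / 2) ^ 2 * (R - x) ^ 2)) := by
        refine integral_mono ?_ ?_ fun z => ?_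
        · refine Integrable.of_bound (by fun_prop) 1 (Eventually.of_forall fun p => ?_)
          rw [Real.norm_eq_abs, abs_of_pos (exp_pos _)]
          refine exp_le_one_iff.mpr ?_
          have := mul_nonneg pi_pos.le (mul_nonneg hS0 (sq_nonneg (R - p)))
          linarith
        · refine Integrable.of_bound (by fun_prop) 1 (Eventually.of_forall fun p => ?_)
          rw [Real.norm_eq_abs, abs_of_pos (exp_pos _)]
          refine exp_le_one_iff.mpr ?_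
          have := mul_nonneg pi_pos.le (mul_nonneg (sq_nonneg (η / 2)) (sq_nonneg (R - p)))
          linarith
        · refine exp_le_exp.mpr ?_
          have h8 := mul_le_mul_of_nonneg_right hS1 (sq_nonneg (R - z))
          have h9 := mul_le_mul_of_nonneg_left h8 pi_pos.le
          linarith
      refine h7.trans (h6.trans (le_of_eq ?_))
      field_simp
    refine h3.trans (h5.trans (le_of_eq ?_))
    rw [integral_const, smul_eq_mul]
    have h10 : μ.real univ = ℓ := by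
      rw [hμ, Measure.real, Measure.restrict_apply_univ, hI, Real.volume_Icc, add_sub_cancel_left, ENNReal.toReal_ofReal hℓ]
    rw [h10]
    ring
  -- Cauchy-Schwarz
  have hF0 : ∀ w, 0 ≤ ‖∫ R, G w R ∂μ‖ := fun w => norm_nonneg _
  have hFb : ∀ w, ‖∫ R, G w R ∂μ‖ ≤ ℓ := by
    intro w
    have h1 := norm_integral_le_of_norm_le_const (μ := μ) (f := fun R => G w R) (C := 1)
      (Eventually.of_forall fun R => (hGn w R).le)
    have h10 : μ.real univ = ℓ := by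
      rw [hμ, Measure.real, Measure.restrict_apply_univ, hI, Real.volume_Icc, add_sub_cancel_left, ENNReal.toReal_ofReal hℓ]
    rwa [h10, one_mul] at h1
  have hFm : AEStronglyMeasurable (fun w => ‖∫ R, G w R ∂μ‖) (gm L) := by
    refine AEStronglyMeasurable.norm ?_
    exact (hGc.aestronglyMeasurable (μ := (gm L).prod μ)).integral_prod_right'
  have hFi : Integrable (fun w => ‖∫ R, G w R ∂μ‖) (gm L) :=
    Integrable.of_bound hFm ℓ (Eventually.of_forall fun w => by rw [norm_norm]; exact hFb w)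
  have hFi2 : Integrable (fun w => ‖∫ R, G w R ∂μ‖ ^ 2) (gm L) := by
    refine Integrable.of_bound (hFm.pow 2) (ℓ ^ 2) (Eventually.of_forall fun w => ?_)
    rw [norm_pow, norm_norm]
    exact pow_le_pow_left₀ (norm_nonneg _) (hFb w) 2
  set m : ℝ := ∫ w, ‖∫ R, G w R ∂μ‖ ∂(gm L) with hm
  have hvar : 0 ≤ ∫ w, (‖∫ R, G w R ∂μ‖ - m) ^ 2 ∂(gm L) := integral_nonneg fun w => sq_nonneg _
  have hvar2 : ∫ w, (‖∫ R, G w R ∂μ‖ - m) ^ 2 ∂(gm L) = ∫ w, ‖∫ R, G w R ∂μ‖ ^ 2 ∂(gm L) - m ^ 2 := by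
    have h1 : ∀ w, (‖∫ R, G w R ∂μ‖ - m) ^ 2 = ‖∫ R, G w R ∂μ‖ ^ 2 - 2 * m * ‖∫ R, G w R ∂μ‖ + m ^ 2 := fun w => by ring
    have h2 : ∫ w, (‖∫ R, G w R ∂μ‖ ^ 2 - 2 * m * ‖∫ R, G w R ∂μ‖ + m ^ 2) ∂(gm L) =
        ∫ w, (‖∫ R, G w R ∂μ‖ ^ 2 - 2 * m * ‖∫ R, G w R ∂μ‖) ∂(gm L) + ∫ _w, m ^ 2 ∂(gm L) :=
      integral_add (hFi2.sub (hFi.const_mul (2 * m))) (integrable_const _)
    have h3 : ∫ w, (‖∫ R, G w R ∂μ‖ ^ 2 - 2 * m * ‖∫ R, G w R ∂μ‖) ∂(gm L) =
        ∫ w, ‖∫ R, G w R ∂μ‖ ^ 2 ∂(gm L) - ∫ w, 2 * m * ‖∫ R, G w R ∂μ‖ ∂(gm L) :=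
      integral_sub hFi2 (hFi.const_mul (2 * m))
    rw [integral_congr_ae (Eventually.of_forall h1), h2, h3, integral_const_mul, ← hm, integral_const, probReal_univ,
      one_smul]
    ring
  refine le_sqrt_of_sq_le ?_
  linarith

end Pool.Agent.Helper75.MM
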