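import Pool.Agent.Helper92.MM.Defs
import Pool.Agent.Helper22.AE.E0

/-!
# MM: expansion of the mean over the centres over the pairs of tuples
-/

open MeasureTheory Real Set Filter Topology

set_option autoImplicit false

namespace Pool.Agent.Helper75.MM

open Pool.Agent.Helper22.AE
open Pool.Agent.Helper60.AD
open Pool.Agent.Helper92.MM

private theorem ee_sum {ι : Type} (s : Finset ι) (f : ι → ℝ) : ee (∑ i ∈ s, f i) = ∏ i ∈ s, ee (f i) := by
  classical
  induction s using Finset.induction_on with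
  | empty => simp [ee_zero]
  | insert a s ha ih => rw [Finset.sum_insert ha, Finset.prod_insert ha, ee_add, ih]

private theorem sum_fibres {κ μ : Type} [DecidableEq μ] (P : Finset κ) (f : κ → μ) (g : κ → κ → ℝ)
    (hg : ∀ k k', 0 ≤ g k k') :
    ∑ m ∈ P.image f, ∑ k ∈ P.filter (fun k => f k = m), ∑ k' ∈ P.filter (fun k => f k = m), g k k' ≤
      ∑ k ∈ P, ∑ k' ∈ P, g k k' := by
  calc ∑ m ∈ P.image f, ∑ k ∈ P.filter (fun k => f k = m), ∑ k' ∈ P.filter (fun k => f k = m), g k k'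
      ≤ ∑ m ∈ P.image f, ∑ k ∈ P.filter (fun k => f k = m), ∑ k' ∈ P, g k k' := by
        refine Finset.sum_le_sum fun m _ => Finset.sum_le_sum fun k _ => ?_
        exact Finset.sum_le_sum_of_subset_of_nonneg (Finset.filter_subset _ _) fun k' _ _ => hg k k'
    _ = ∑ k ∈ P, ∑ k' ∈ P, g k k' :=
        Finset.sum_fiberwise_of_maps_to (fun k hk => Finset.mem_image_of_mem f hk) _

theorem Yq_pairs {J : ℕ} (h : ℝ → ℝ) (A : Fin J → Finset (ℤ × ℤ)) (b : ℤ × ℤ → ℂ) (hb : ∀ k, ‖b k‖ ≤ 1)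
    (a : ℝ) {ℓ : ℝ} (hℓ : 0 ≤ ℓ) (α : ℝ) :
    ∫ R in Icc a (a + ℓ), Yq h A (fun _ => b) R α ≤ ℓ * ∏ t, ((A t).card : ℝ) +
      ∑ k ∈ Fintype.piFinset A, ∑ k' ∈ (Fintype.piFinset A).filter (fun k' => k' ≠ k),
        ‖∫ R in Icc a (a + ℓ), ee (-(R * Ph h k k' α))‖ := by
  classical
  set P := Fintype.piFinset A with hP
  set I : Set ℝ := Icc a (a + ℓ) with hI
  set B : (Fin J → ℤ × ℤ) → ℂ := fun k => ∏ t, b (k t) with hB
  have hBn : ∀ k, ‖B k‖ ≤ 1 := by
    intro k
    rw [hB]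
    simp only
    rw [norm_prod]
    exact Finset.prod_le_one (fun i _ => norm_nonneg _) (fun i _ => hb _)
  set F : ℤ × ℤ → Finset (Fin J → ℤ × ℤ) := fun m => P.filter (fun k => ∑ t, k t = m) with hF
  have hco : ∀ (R : ℝ) (m : ℤ × ℤ), co h A (fun _ => b) R α m =
      ∑ k ∈ F m, B k * ee (-(R * ∑ t, nk (k t) * gph h (k t) α)) := by
    intro R m
    unfold co
    refine Finset.sum_congr rfl fun k _ => ?_
    rw [Finset.prod_mul_distrib, ← ee_sum, Finset.mul_sum, Finset.sum_neg_distrib]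
  have hsq : ∀ (R : ℝ) (m : ℤ × ℤ), ((‖co h A (fun _ => b) R α m‖ ^ 2 : ℝ) : ℂ) =
      ∑ k ∈ F m, ∑ k' ∈ F m, B k * (starRingEnd ℂ) (B k') * ee (-(R * Ph h k k' α)) := by
    intro R m
    rw [← Complex.normSq_eq_norm_sq, ← Complex.mul_conj, hco R m, map_sum, Finset.sum_mul_sum]
    refine Finset.sum_congr rfl fun k _ => Finset.sum_congr rfl fun k' _ => ?_
    rw [map_mul, ← ee_neg]
    have h1 : ee (-(R * Ph h k k' α)) = ee (-(R * ∑ t, nk (k t) * gph h (k t) α)) *
        ee (- -(R * ∑ t, nk (k' t) * gph h (k' t) α)) := by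
      rw [← ee_add]
      congr 1
      unfold Ph
      ring
    rw [h1]
    ring
  have hec : ∀ c : ℝ, Continuous fun R : ℝ => ee (-(R * c)) := by
    intro c
    exact ee_cont.comp (by fun_prop)
  have hint : ∀ (k k' : Fin J → ℤ × ℤ), IntegrableOn
      (fun R : ℝ => B k * (starRingEnd ℂ) (B k') * ee (-(R * Ph h k k' α))) I := by
    intro k k'
    exact (continuous_const.mul (hec _)).continuousOn.integrableOn_compact isCompact_Icc
  have hcc : ∀ m : ℤ × ℤ, IntegrableOn (fun R : ℝ => ‖co h A (fun _ => b) R α m‖ ^ 2) I := by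
    intro m
    refine Continuous.integrableOn_Icc ?_
    have h1 : (fun R : ℝ => ‖co h A (fun _ => b) R α m‖ ^ 2) = fun R : ℝ =>
        ‖∑ k ∈ F m, B k * ee (-(R * ∑ t, nk (k t) * gph h (k t) α))‖ ^ 2 := by
      funext R
      rw [hco]
    rw [h1]
    refine (Continuous.norm ?_).pow 2
    exact continuous_finsetSum _ fun k _ => continuous_const.mul (hec _)
  -- each frequency
  have hm : ∀ m : ℤ × ℤ, ∫ R in I, ‖co h A (fun _ => b) R α m‖ ^ 2 ≤
      ∑ k ∈ F m, ∑ k' ∈ F m, ‖∫ R in I, ee (-(R * Ph h k k' α))‖ := by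
    intro m
    have h1 : ((∫ R in I, ‖co h A (fun _ => b) R α m‖ ^ 2 : ℝ) : ℂ) =
        ∑ k ∈ F m, ∑ k' ∈ F m, B k * (starRingEnd ℂ) (B k') * ∫ R in I, ee (-(R * Ph h k k' α)) := by
      rw [← integral_complex_ofReal, integral_congr_ae (Eventually.of_forall fun R => hsq R m),
        integral_finsetSum _ fun k _ => integrable_finsetSum _ fun k' _ => hint k k']
      refine Finset.sum_congr rfl fun k _ => ?_
      rw [integral_finsetSum _ fun k' _ => hint k k']
      exact Finset.sum_congr rfl fun k' _ => integral_const_mul _ _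
    calc ∫ R in I, ‖co h A (fun _ => b) R α m‖ ^ 2 ≤ ‖((∫ R in I, ‖co h A (fun _ => b) R α m‖ ^ 2 : ℝ) : ℂ)‖ := by
          rw [Complex.norm_real]
          exact le_abs_self _
      _ ≤ ∑ k ∈ F m, ∑ k' ∈ F m, ‖∫ R in I, ee (-(R * Ph h k k' α))‖ := by
          rw [h1]
          refine (norm_sum_le _ _).trans (Finset.sum_le_sum fun k _ => ?_)
          refine (norm_sum_le _ _).trans (Finset.sum_le_sum fun k' _ => ?_)
          rw [norm_mul, norm_mul, RCLike.norm_conj]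
          exact mul_le_of_le_one_left (norm_nonneg _) (mul_le_one₀ (hBn k) (norm_nonneg _) (hBn k'))
  have hY : ∫ R in I, Yq h A (fun _ => b) R α = ∑ m ∈ fq A, ∫ R in I, ‖co h A (fun _ => b) R α m‖ ^ 2 := by
    unfold Yq
    exact integral_finsetSum _ fun m _ => hcc m
  have hdiag : ∀ k : Fin J → ℤ × ℤ, ‖∫ R in I, ee (-(R * Ph h k k α))‖ = ℓ := by
    intro k
    have h1 : Ph h k k α = 0 := sub_self _
    have h2 : (fun R : ℝ => ee (-(R * Ph h k k α))) = fun _ => 1 := by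
      funext R
      rw [h1, mul_zero, neg_zero, ee_zero]
    rw [h2, integral_const, Measure.real, Measure.restrict_apply_univ, hI, Real.volume_Icc, add_sub_cancel_left,
      ENNReal.toReal_ofReal hℓ, norm_smul, norm_one, mul_one, Real.norm_eq_abs, abs_of_nonneg hℓ]
  rw [hY]
  calc ∑ m ∈ fq A, ∫ R in I, ‖co h A (fun _ => b) R α m‖ ^ 2
      ≤ ∑ m ∈ fq A, ∑ k ∈ F m, ∑ k' ∈ F m, ‖∫ R in I, ee (-(R * Ph h k k' α))‖ := Finset.sum_le_sum fun m _ => hm m
    _ ≤ ∑ k ∈ P, ∑ k' ∈ P, ‖∫ R in I, ee (-(R * Ph h k k' α))‖ := by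
        have h3 := sum_fibres P (fun k : Fin J → ℤ × ℤ => ∑ t, k t)
          (fun k k' => ‖∫ R in I, ee (-(R * Ph h k k' α))‖) (fun k k' => norm_nonneg _)
        unfold fq
        convert h3 using 2
    _ = ∑ k ∈ P, (ℓ + ∑ k' ∈ P.filter (fun k' => k' ≠ k), ‖∫ R in I, ee (-(R * Ph h k k' α))‖) := by
        refine Finset.sum_congr rfl fun k hk => ?_
        rw [← Finset.sum_filter_add_sum_filter_not P (fun k' => k' = k), Finset.filter_eq' P k, if_pos hk,
          Finset.sum_singleton, hdiag k]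
    _ = ℓ * ∏ t, ((A t).card : ℝ) + ∑ k ∈ P, ∑ k' ∈ P.filter (fun k' => k' ≠ k),
          ‖∫ R in I, ee (-(R * Ph h k k' α))‖ := by
        rw [Finset.sum_add_distrib, Finset.sum_const, hP, Fintype.card_piFinset, nsmul_eq_mul, mul_comm]
        push_cast
        rfl

end Pool.Agent.Helper75.MM
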